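import Pool.Agent.Lib.MP_2c7063_coT.Uncond

/-!
# Final forms
-/

namespace Pool.Agent.Lib.MP_2c7063_coT

open Set

variable {α : Type*}

/-- One element less, the first and the last element of the base prescribed. -/
theorem one_less {M : Matroid α} {B I : Set α} {r : ℕ} (hB : M.IsBase B)
    (hd : Disjoint B I) (hr : B.encard = r) (hIr : I.encard + 1 = r) {s s' : α} (hs : s ∈ B)
    (hs' : s' ∈ B) (hne : s ≠ s') (h1 : M.IsBase (insert s I)) (h2 : M.IsBase (insert s' I)) :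
    (∃ x y : ℕ → α, InjOn x (Iio r) ∧ x '' Iio r = B ∧ InjOn y (Iio (r - 1)) ∧
      y '' Iio (r - 1) = I ∧ x 0 = s ∧ x (r - 1) = s' ∧
      ∀ i < r, M.IsBase ((B \ x '' Iio i) ∪ y '' Iio i) ∧
        M.IsBase ((I \ y '' Iio i) ∪ x '' Iio (i + 1))) ↔
    ∀ A ⊆ B ∪ I, A.Nonempty → A.encard < 2 * M.eRk A := by
  constructor
  · rintro ⟨x, y, hx, hxB, -, -, -, -, hW⟩ A hA hAne
    have hI : M.Indep I := h1.indep.subset (subset_insert _ _)
    rw [two_mul]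
    exact MP_2c7063_coS.necessary hI hI hr hIr hx hxB hW hA hAne
  · intro hdens
    exact first_last hB hd hr hIr (fun A hA hAne => by rw [← two_mul]; exact hdens A hA hAne)
      hs hs' hne h1 h2

/-- The theorem on a set `S` of deleted elements. -/
theorem up_to {M : Matroid α} {B B' S : Set α} {r : ℕ} (hr0 : 1 ≤ r) (hB : M.IsBase B)
    (hB' : M.IsBase B') (hd : Disjoint B B') (hr : B.encard = r) :
    ((∃ x y : ℕ → α, InjOn x (Iio r) ∧ InjOn y (Iio r) ∧ x '' Iio r = B ∧ y '' Iio r = B' ∧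
        (∀ i ≤ r, M.IsBase ((B' \ y '' Iio i) ∪ x '' Iio i)) ∧
        ∀ i < r, ∃ e ∈ S, M.IsBase (((B \ x '' Iio i) ∪ y '' Iio (i + 1)) \ {e})) ↔
      ∀ A ⊆ B ∪ B', A.Nonempty → A.encard = 2 * M.eRk A → (A ∩ S).Nonempty) ∧
    ((∀ A ⊆ B ∪ B', A.Nonempty → A.encard = 2 * M.eRk A → (A ∩ S).Nonempty) →
      ∀ t ∈ B', (∃ e ∈ S, M.IsBase (insert t B \ {e})) →
      ∃ x y : ℕ → α, InjOn x (Iio r) ∧ InjOn y (Iio r) ∧ x '' Iio r = B ∧ y '' Iio r = B' ∧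
        y 0 = t ∧ (∀ i ≤ r, M.IsBase ((B' \ y '' Iio i) ∪ x '' Iio i)) ∧
        ∀ i < r, ∃ e ∈ S, M.IsBase (((B \ x '' Iio i) ∪ y '' Iio (i + 1)) \ {e})) := by
  constructor
  · rw [← uncond_iff hr0 hB hB' hd hr]
    constructor
    · rintro ⟨x, y, h1, h2, h3, h4, h5, h6⟩
      exact ⟨x, y, h1, h3, h2, h4, h5, h6⟩
    · rintro ⟨x, y, h1, h2, h3, h4, h5, h6⟩
      exact ⟨x, y, h1, h3, h2, h4, h5, h6⟩
  · intro hS t ht hex
    obtain ⟨x, y, h1, h2, h3, h4, h7, h5, h6⟩ := uncond_presc hB hB' hd hr hS ht hex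
    exact ⟨x, y, h1, h3, h2, h4, h7, h5, h6⟩

end Pool.Agent.Lib.MP_2c7063_coT
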