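import Mathlib

/-!
# Sets that become independent after the deletion of one element of a given set

For a matroid `M` and a set `S` the sets `X` such that `X` or `X \ {e}` for some `e ∈ S` is
independent are the independent sets of a matroid (the union of `M` and of the matroid of rank one
on `S`).
-/

namespace Pool.Agent.Lib.MP_2c7063_coT

open Set

variable {α : Type*}

/-- `X` is independent, or becomes independent after the deletion of an element of `S`. -/
def PreInd (M : Matroid α) (S X : Set α) : Prop :=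
  M.Indep X ∨ ∃ e ∈ S, e ∈ X ∧ M.Indep (X \ {e})

theorem PreInd.subset {M : Matroid α} {S X Y : Set α} (h : PreInd M S Y) (hXY : X ⊆ Y) :
    PreInd M S X := by
  rcases h with h | ⟨e, heS, heY, h⟩
  · exact Or.inl (h.subset hXY)
  · by_cases heX : e ∈ X
    · exact Or.inr ⟨e, heS, heX, h.subset (sdiff_subset_sdiff_left hXY)⟩
    · exact Or.inl (h.subset (subset_sdiff_singleton hXY heX))

theorem insert_sdiff_self' {X : Set α} {e : α} (he : e ∉ X) : insert e X \ {e} = X := by
  rw [insert_sdiff_of_mem _ (mem_singleton e), sdiff_singleton_eq_self he]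

theorem insert_sdiff_comm' {X : Set α} {e z : α} (h : z ≠ e) :
    insert z X \ {e} = insert z (X \ {e}) :=
  insert_sdiff_of_notMem _ (by simpa using h)

theorem lt_of_add_one_lt {a b : ℕ∞} (h : a + 1 < b + 1) : a < b := by
  by_contra h'
  exact absurd h (not_lt.2 (add_le_add (not_lt.1 h') le_rfl))

theorem aug1 {M : Matroid α} {S X Y : Set α} (hX : M.Indep X) (hY : PreInd M S Y)
    (hlt : X.encard < Y.encard) : ∃ z ∈ Y, z ∉ X ∧ PreInd M S (insert z X) := by
  rcases hY with hY | ⟨e, heS, heY, hY⟩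
  · obtain ⟨z, hz, h⟩ := hX.exists_insert_of_encard_lt hY hlt
    exact ⟨z, hz.1, hz.2, Or.inl h⟩
  · by_cases heX : e ∈ X
    · have h1 : (X \ {e}).encard < (Y \ {e}).encard := by
        refine lt_of_add_one_lt ?_
        rw [encard_sdiff_singleton_add_one heX, encard_sdiff_singleton_add_one heY]
        exact hlt
      obtain ⟨z, hz, h⟩ := (hX.subset sdiff_subset).exists_insert_of_encard_lt hY h1
      have hze : z ≠ e := fun h' => hz.1.2 (by simpa using h')
      refine ⟨z, hz.1.1, fun h' => hz.2 ⟨h', by simpa using hze⟩,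
        Or.inr ⟨e, heS, Or.inr heX, ?_⟩⟩
      rw [insert_sdiff_comm' hze]
      exact h
    · exact ⟨e, heY, heX, Or.inr ⟨e, heS, Or.inl rfl, by rwa [insert_sdiff_self' heX]⟩⟩

theorem aug {M : Matroid α} {S X Y : Set α} (hX : PreInd M S X) (hY : PreInd M S Y)
    (hlt : X.encard < Y.encard) : ∃ z ∈ Y, z ∉ X ∧ PreInd M S (insert z X) := by
  by_cases hXi : M.Indep X
  · exact aug1 hXi hY hlt
  · obtain ⟨e, heS, heX, hX⟩ := hX.resolve_left hXi
    have key : ∀ Y' ⊆ Y, M.Indep Y' → (X \ {e}).encard < Y'.encard →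
        ∃ z ∈ Y, z ∉ X ∧ PreInd M S (insert z X) := by
      intro Y' hY' hYi hlt'
      obtain ⟨z, hz, h⟩ := hX.exists_insert_of_encard_lt hYi hlt'
      have hze : z ≠ e := by
        rintro rfl
        rw [insert_sdiff_singleton, insert_eq_of_mem heX] at h
        exact hXi h
      refine ⟨z, hY' hz.1, fun h' => hz.2 ⟨h', by simpa using hze⟩,
        Or.inr ⟨e, heS, Or.inr heX, ?_⟩⟩
      rw [insert_sdiff_comm' hze]
      exact h
    have h0 := encard_sdiff_singleton_add_one heX
    rcases hY with hY | ⟨f, hfS, hfY, hY⟩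
    · refine key Y Subset.rfl hY (lt_of_le_of_lt ?_ hlt)
      rw [← h0]
      exact le_self_add
    · refine key _ sdiff_subset hY (lt_of_add_one_lt ?_)
      rw [h0, encard_sdiff_singleton_add_one hfY]
      exact hlt

/-- The matroid on the finite set `E` of the sets of `PreInd`. -/
def lift (M : Matroid α) (E S : Set α) (hE : E.Finite) : Matroid α :=
  (IndepMatroid.ofFinite hE (fun X => X ⊆ E ∧ PreInd M S X) ⟨empty_subset _, Or.inl M.empty_indep⟩
    (fun _ _ h h' => ⟨h'.trans h.1, h.2.subset h'⟩)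
    (fun X Y hX hY hlt => by
      have h1 : X.encard < Y.encard := by
        rw [← (hE.subset hX.1).cast_ncard_eq, ← (hE.subset hY.1).cast_ncard_eq]
        exact_mod_cast hlt
      obtain ⟨z, hzY, hzX, h⟩ := aug hX.2 hY.2 h1
      exact ⟨z, hzY, hzX, insert_subset (hY.1 hzY) hX.1, h⟩)
    (fun _ h => h.1)).matroid

theorem lift_indep {M : Matroid α} {E S X : Set α} {hE : E.Finite} :
    (lift M E S hE).Indep X ↔ X ⊆ E ∧ PreInd M S X := by
  simp [lift]

theorem lift_ground {M : Matroid α} {E S : Set α} {hE : E.Finite} : (lift M E S hE).E = E := rfl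

theorem eRk_le_lift {M : Matroid α} {E S X : Set α} {hE : E.Finite} (hX : X ⊆ E) :
    M.eRk X ≤ (lift M E S hE).eRk X := by
  obtain ⟨J, hJ⟩ := M.exists_isBasis' X
  rw [hJ.eRk_eq_encard]
  exact (lift_indep.2 ⟨hJ.subset.trans hX, Or.inl hJ.indep⟩ :
    (lift M E S hE).Indep J).encard_le_eRk_of_subset hJ.subset

theorem eRk_add_one_le_lift {M : Matroid α} {E S X : Set α} {hE : E.Finite} (hX : X ⊆ E) {e : α}
    (heS : e ∈ S) (heX : e ∈ X) : M.eRk (X \ {e}) + 1 ≤ (lift M E S hE).eRk X := by
  obtain ⟨J, hJ⟩ := M.exists_isBasis' (X \ {e})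
  have heJ : e ∉ J := fun h => (hJ.subset h).2 rfl
  have hsub : insert e J ⊆ X := insert_subset heX (hJ.subset.trans sdiff_subset)
  rw [hJ.eRk_eq_encard, ← encard_insert_of_notMem heJ]
  refine (lift_indep.2 ⟨hsub.trans hX, Or.inr ⟨e, heS, Or.inl rfl, ?_⟩⟩ :
    (lift M E S hE).Indep (insert e J)).encard_le_eRk_of_subset hsub
  rw [insert_sdiff_self' heJ]
  exact hJ.indep

theorem encard_le_of_preInd {M : Matroid α} {S X : Set α} (h : PreInd M S X) :
    X.encard ≤ M.eRank + 1 := by
  rcases h with h | ⟨e, _, heX, h⟩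
  · exact h.encard_le_eRank.trans le_self_add
  · rw [← encard_sdiff_singleton_add_one heX]
    exact add_le_add h.encard_le_eRank le_rfl

end Pool.Agent.Lib.MP_2c7063_coT
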