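import Pool.Agent.Lib.MP_2c7063_coT.Small

/-!
# Matroids with a graphic contraction by an almost tight set
-/

namespace Pool.Agent.Lib.MP_2c7063_coT

open Set
open scoped Matroid
open Pool.Agent.Lib.MP_2c7063_coS (Good Cut Rep inc star isBase_of isBase_of_card good_two
  good_three contract_bases card_le inc_apply_of_notMem)

variable {α V : Type*}

/-- The reduction of a cut of at most three elements. -/
theorem reduce {M : Matroid α} {B B' : Set α} {n : ℕ} (hB : M.IsBase B) (hB' : M.IsBase B')
    (hd : Disjoint B B') (hr : B.encard = (n + 1 : ℕ)) {D : Finset α} (hDE : (D : Set α) ⊆ B ∪ B')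
    (hcut : Cut M (B ∪ B') (D : Set α)) (hne : D.Nonempty) (hcard : D.card ≤ 3)
    (ih : ∀ b b' : α, b ∈ D → b' ∈ D → ∀ P P' : Set α, P ∪ P' ⊆ B ∪ B' →
      (B ∪ B') \ {b, b'} ⊆ P ∪ P' → (M ／ {b}).IsBase P → (M ／ {b}).IsBase P' → Disjoint P P' →
      P.encard = n → ∃ x y : ℕ → α, Good (M ／ {b}) P P' n x y) :
    ∃ x y : ℕ → α, Good M B B' (n + 1) x y := by
  classical
  have hr' : B'.encard = (n + 1 : ℕ) := by
    rw [hB'.encard_eq_eRank, ← hB.encard_eq_eRank, hr]
  obtain ⟨e, he⟩ := hne
  have hmeet : ∀ X : Set α, M.IsBase X → X ⊆ B ∪ B' → ∃ f ∈ D, f ∈ X := by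
    intro X hX hXs
    by_contra hcon
    push Not at hcon
    have h1 := hcut X hXs hX.indep (disjoint_right.2 fun f hf => hcon f hf) e he
    have h2 : X = insert e X := hX.eq_of_subset_indep h1 (subset_insert _ _)
    exact hcon e he (h2 ▸ mem_insert _ _)
  obtain ⟨b, hbD, hb⟩ := hmeet B hB subset_union_left
  obtain ⟨b', hb'D, hb'⟩ := hmeet B' hB' subset_union_right
  have hbB' : b ∉ B' := disjoint_left.1 hd hb
  have hb'B : b' ∉ B := disjoint_right.1 hd hb'
  have hne : b ≠ b' := fun h => hbB' (h ▸ hb')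
  have hrest : ((D.erase b).erase b').card ≤ 1 := by
    rw [Finset.card_erase_of_mem (Finset.mem_erase.2 ⟨hne.symm, hb'D⟩),
      Finset.card_erase_of_mem hbD]
    omega
  have hsub1 : (B \ {b}) ∪ (B' \ {b'}) ⊆ B ∪ B' :=
    union_subset_union sdiff_subset sdiff_subset
  have hsub2 : (B ∪ B') \ {b, b'} ⊆ (B \ {b}) ∪ (B' \ {b'}) := by
    rintro z ⟨hz | hz, hz'⟩
    · exact Or.inl ⟨hz, fun h => hz' (Or.inl h)⟩
    · exact Or.inr ⟨hz, fun h => hz' (Or.inr h)⟩
  rcases Nat.le_one_iff_eq_zero_or_eq_one.1 hrest with h0 | h1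
  · -- two edges
    have hD2 : ∀ f ∈ D, f = b ∨ f = b' := by
      intro f hf
      by_contra hcon
      push Not at hcon
      have : f ∈ (D.erase b).erase b' :=
        Finset.mem_erase.2 ⟨hcon.2, Finset.mem_erase.2 ⟨hcon.1, hf⟩⟩
      rw [Finset.card_eq_zero.1 h0] at this
      exact absurd this (Finset.notMem_empty _)
    have hDeq : (D : Set α) = {b, b'} := by
      ext f
      constructor
      · intro hf; exact hD2 f hf
      · rintro (rfl | rfl)
        · exact hbD
        · exact hb'D
    obtain ⟨c1, c2, c3⟩ := contract_bases hB hB' hr hb hb' hbB' hcut hbD (fun f hf hfD => by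
      rcases hD2 f hfD with rfl | rfl
      · exact absurd hf hbB'
      · rfl)
    obtain ⟨x, y, hg⟩ := ih b b' hbD hb'D _ _ hsub1 hsub2 c1 c2
      (hd.mono sdiff_subset sdiff_subset) c3
    rw [hDeq] at hcut
    exact ⟨_, _, good_two hB hB' hd hr hb hb' hcut hg⟩
  · obtain ⟨c, hc⟩ := Finset.card_eq_one.1 h1
    have hcm : c ∈ (D.erase b).erase b' := by rw [hc]; exact Finset.mem_singleton_self _
    have hcD : c ∈ D := Finset.mem_of_mem_erase (Finset.mem_of_mem_erase hcm)
    have hcb' : c ≠ b' := (Finset.mem_erase.1 hcm).1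
    have hcb : c ≠ b := (Finset.mem_erase.1 (Finset.mem_erase.1 hcm).2).1
    have hD3 : ∀ f ∈ D, f = b ∨ f = b' ∨ f = c := by
      intro f hf
      by_contra hcon
      push Not at hcon
      have : f ∈ (D.erase b).erase b' :=
        Finset.mem_erase.2 ⟨hcon.2.1, Finset.mem_erase.2 ⟨hcon.1, hf⟩⟩
      rw [hc, Finset.mem_singleton] at this
      exact hcon.2.2 this
    rcases hDE (Finset.mem_coe.2 hcD) with hcB1 | hcB1
    · -- two edges of `B`
      have hDeq : (D : Set α) = {b, c, b'} := by
        ext f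
        constructor
        · intro hf
          rcases hD3 f hf with rfl | rfl | rfl
          · simp
          · simp
          · simp
        · rintro (rfl | rfl | rfl)
          · exact hbD
          · exact hcD
          · exact hb'D
      have hcB2 : c ∉ B' := disjoint_left.1 hd hcB1
      obtain ⟨c1, c2, c3⟩ := contract_bases hB hB' hr hb hb' hbB' hcut hbD (fun f hf hfD => by
        rcases hD3 f hfD with rfl | rfl | rfl
        · exact absurd hf hbB'
        · rfl
        · exact absurd hf hcB2)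
      obtain ⟨x, y, hg⟩ := ih b b' hbD hb'D _ _ hsub1 hsub2 c1 c2
        (hd.mono sdiff_subset sdiff_subset) c3
      rw [hDeq] at hcut
      exact good_three hB hd hr hb hcB1 hcb.symm hb' hcut hg
    · -- two edges of `B'`
      have hDeq : (D : Set α) = {b', c, b} := by
        ext f
        constructor
        · intro hf
          rcases hD3 f hf with rfl | rfl | rfl
          · simp
          · simp
          · simp
        · rintro (rfl | rfl | rfl)
          · exact hb'D
          · exact hcD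
          · exact hbD
      have hcB2 : c ∉ B := disjoint_right.1 hd hcB1
      rw [union_comm] at hcut
      obtain ⟨c1, c2, c3⟩ := contract_bases hB' hB hr' hb' hb hb'B hcut hb'D (fun f hf hfD => by
        rcases hD3 f hfD with rfl | rfl | rfl
        · rfl
        · exact absurd hf hb'B
        · exact absurd hf hcB2)
      obtain ⟨x, y, hg⟩ := ih b' b hb'D hbD _ _ (by rw [union_comm]; exact hsub1)
        (by rw [union_comm (B' \ {b'}), pair_comm]; exact hsub2) c1 c2
        (hd.symm.mono sdiff_subset sdiff_subset) c3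
      rw [hDeq] at hcut
      obtain ⟨X, Y, hXY⟩ := good_three hB' hd.symm hr' hb' hcB1 hcb'.symm hb hcut hg
      exact ⟨Y, X, hXY.symm⟩

/-- A cut of a contraction is a cut. -/
theorem cut_of_contract {M : Matroid α} {E F D : Set α} (hE : E ⊆ M.E) (hDE : D ⊆ E \ F)
    (hcut : Cut (M ／ F) (E \ F) D) : Cut M E D := by
  intro J hJE hJ hJD e heD
  obtain ⟨heE, heF⟩ := hDE heD
  -- `e` is not in the closure of `E \ D`
  have key : e ∉ M.closure (E \ D) := by
    obtain ⟨L, hL⟩ := (M ／ F).exists_isBasis' ((E \ F) \ D)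
    have h1 := hcut L (hL.subset.trans sdiff_subset) hL.indep
      (disjoint_left.2 fun z hz hzD => (hL.subset hz).2 hzD) e heD
    have heL : e ∉ L := fun h => (hL.subset h).2 heD
    have h2 := (hL.indep.insert_indep_iff_of_notMem heL).1 h1
    have h3 : e ∉ (M ／ F).closure ((E \ F) \ D) := by
      rw [← hL.closure_eq_closure]; exact h2.2
    rw [Matroid.contract_closure_eq] at h3
    intro h4
    apply h3
    refine ⟨M.closure_subset_closure ?_ h4, heF⟩
    intro z hz
    by_cases hzF : z ∈ F
    · exact Or.inr hzF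
    · exact Or.inl ⟨⟨hz.1, hzF⟩, hz.2⟩
  have heJ : e ∉ J := disjoint_right.1 hJD heD
  rw [hJ.insert_indep_iff_of_notMem heJ]
  refine ⟨hE heE, fun h => key (M.closure_subset_closure ?_ h)⟩
  exact fun z hz => ⟨hJE hz, disjoint_left.1 hJD hz⟩

open Classical in
/-- A vertex of small degree. -/
theorem small_star' {u v : α → V} {F B : Finset α} {n : ℕ} (hF : F.card < 2 * (n + 1))
    (hBF : B ⊆ F) (hBn : B.card = n) (hn : 1 ≤ n)
    (hB : LinearIndepOn (ZMod 2) (inc u v) (B : Set α)) :
    ∃ w, (F.filter fun e => ¬ (u e = w ↔ v e = w)).Nonempty ∧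
      (F.filter fun e => ¬ (u e = w ↔ v e = w)).card ≤ 3 := by
  by_contra hcon'
  have hcon : ∀ w, (F.filter fun e => ¬ (u e = w ↔ v e = w)).Nonempty →
      3 < (F.filter fun e => ¬ (u e = w ↔ v e = w)).card := fun w hw =>
    not_le.1 fun h => hcon' ⟨w, hw, h⟩
  set r : V → α → Prop := fun w e => ¬ (u e = w ↔ v e = w) with hr
  set W : Finset V := (F.image u ∪ F.image v).filter fun w => (F.filter (r w)).Nonempty with hWdef
  have hsupp : ∀ e ∈ B, ∀ w, inc u v e w ≠ 0 → w ∈ W := by
    intro e he w hw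
    have hstar : e ∈ star (F : Set α) u v w := by
      by_contra h
      exact hw (inc_apply_of_notMem (Finset.mem_coe.2 (hBF he)) h)
    have h2 : ¬ (u e = w ↔ v e = w) := hstar.2
    refine Finset.mem_filter.2 ⟨?_, ⟨e, Finset.mem_filter.2 ⟨hBF he, h2⟩⟩⟩
    by_cases h3 : u e = w
    · exact Finset.mem_union_left _ (h3 ▸ Finset.mem_image_of_mem u (hBF he))
    · by_cases h4 : v e = w
      · exact Finset.mem_union_right _ (h4 ▸ Finset.mem_image_of_mem v (hBF he))
      · exact absurd (iff_of_false h3 h4) h2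
  obtain ⟨e₀, he₀⟩ : B.Nonempty := Finset.card_pos.1 (by omega)
  obtain ⟨w₀, hw₀⟩ : ∃ w, inc u v e₀ w ≠ 0 := by
    by_contra h
    push Not at h
    exact hB.ne_zero (Finset.mem_coe.2 he₀) (Finsupp.ext h)
  have h1 := card_le hB (hsupp e₀ he₀ w₀ hw₀) hsupp
  have h2 : ∑ w ∈ W, (F.bipartiteAbove r w).card = ∑ e ∈ F, (W.bipartiteBelow r e).card :=
    Finset.sum_card_bipartiteAbove_eq_sum_card_bipartiteBelow r
  have h3 : ∑ e ∈ F, (W.bipartiteBelow r e).card ≤ F.card * 2 := by
    rw [← smul_eq_mul]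
    refine Finset.sum_le_card_nsmul _ _ _ fun e he => ?_
    refine (Finset.card_le_card (t := {u e, v e}) ?_).trans Finset.card_le_two
    intro w hw
    have hw' : ¬ (u e = w ↔ v e = w) := (Finset.mem_filter.1 hw).2
    rw [Finset.mem_insert, Finset.mem_singleton]
    by_contra h4
    push Not at h4
    exact hw' (iff_of_false (fun h => h4.1 h.symm) (fun h => h4.2 h.symm))
  have h4 : W.card * 4 ≤ ∑ w ∈ W, (F.bipartiteAbove r w).card := by
    rw [← smul_eq_mul]
    refine Finset.card_nsmul_le_sum _ _ _ fun w hw => ?_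
    have := hcon w (Finset.mem_filter.1 hw).2
    exact this
  rw [h2] at h4
  omega

theorem near [Nonempty α] (n : ℕ) : ∀ (M : Matroid α) (F : Set α) (V : Type) (u v : α → V),
    Rep (M ／ F) u v → M.eRk F ≤ 4 → 2 * M.eRk F ≤ F.encard + 1 →
    ∀ B B' : Set α, M.IsBase B → M.IsBase B' → Disjoint B B' → F ⊆ B ∪ B' → B.encard = n →
    ∃ x y : ℕ → α, Good M B B' n x y := by
  classical
  induction n with
  | zero =>
    intro M F V u v _ _ _ B B' hB hB' hd _ hr
    exact small_rank hB hB' hd hr (by omega)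
  | succ n ih =>
    intro M F V u v hM h4 h2 B B' hB hB' hd hF hr
    by_cases hn : n + 1 ≤ 4
    · exact small_rank hB hB' hd hr hn
    have hr' : B'.encard = (n + 1 : ℕ) := by
      rw [hB'.encard_eq_eRank, ← hB.encard_eq_eRank, hr]
    have hfin : (B ∪ B').Finite :=
      (finite_of_encard_eq_coe hr).union (finite_of_encard_eq_coe hr')
    have hE : B ∪ B' ⊆ M.E := union_subset hB.subset_ground hB'.subset_ground
    have hEF : (B ∪ B') \ F ⊆ (M ／ F).E := by
      rw [Matroid.contract_ground]; exact sdiff_subset_sdiff_left hE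
    obtain ⟨G, hG⟩ := (hfin.subset (sdiff_subset (t := F))).exists_finset_coe
    obtain ⟨K, hK⟩ := M.exists_isBasis' F
    obtain ⟨k, hk⟩ : ∃ k : ℕ, M.eRk F = k := by
      have h5 : M.eRk F ≠ ⊤ := (h4.trans_lt (by decide)).ne
      obtain ⟨k, hk⟩ := ENat.ne_top_iff_exists.1 h5
      exact ⟨k, hk.symm⟩
    obtain ⟨f, hf⟩ := ENat.ne_top_iff_exists.1 (hfin.subset hF).encard_lt_top.ne
    have hk4 : k ≤ 4 := by rw [hk] at h4; exact_mod_cast h4
    have hkf : 2 * k ≤ f + 1 := by rw [hk, ← hf] at h2; exact_mod_cast h2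
    -- a large independent set of the contraction
    obtain ⟨L, hL, hKL⟩ := hK.indep.subset_isBasis_of_subset (hK.subset.trans hF)
    have hLn : L.encard = (n + 1 : ℕ) := by
      rw [hL.encard_eq_eRk, ← hr, hB.encard_eq_eRank]
      refine le_antisymm (M.eRk_le_eRank _) ?_
      rw [← hB.encard_eq_eRank]
      exact hB.indep.encard_le_eRk_of_subset subset_union_left
    have hKk : K.encard = k := by rw [hK.encard_eq_eRk, hk]
    have hLF : Disjoint F (L \ K) := by
      rw [disjoint_left]
      intro z hzF hzL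
      have h6 := hK.eq_of_subset_indep (hL.indep.subset (insert_subset hzL.1 hKL))
        (subset_insert _ _) (insert_subset hzF hK.subset)
      exact hzL.2 (h6 ▸ mem_insert _ _)
    have hJI : (M ／ F).Indep (L \ K) := by
      rw [hK.contract_indep_iff]
      refine ⟨?_, hLF⟩
      rw [sdiff_union_of_subset hKL]
      exact hL.indep
    have hLfin : (L \ K).Finite := (hfin.subset hL.subset).subset sdiff_subset
    obtain ⟨J, hJ⟩ := hLfin.exists_finset_coe
    have hJk : J.card + k = n + 1 := by
      have h7 := encard_sdiff_add_encard_of_subset hKL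
      rw [hLn, hKk, ← hJ, encard_coe_eq_coe_finsetCard] at h7
      exact_mod_cast h7
    have hJG : J ⊆ G := by
      rw [← Finset.coe_subset, hJ, hG]
      exact fun z hz => ⟨hL.subset hz.1, fun h => disjoint_left.1 hLF h hz⟩
    have hGf : G.card + f = 2 * (n + 1) := by
      have h8 := encard_sdiff_add_encard_of_subset hF
      rw [encard_union_eq hd, hr, hr', ← hG, encard_coe_eq_coe_finsetCard, ← hf] at h8
      have h9 : G.card + f = (n + 1) + (n + 1) := by exact_mod_cast h8
      omega
    have hJE : (J : Set α) ⊆ (M ／ F).E := by rw [hJ]; exact hJI.subset_ground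
    obtain ⟨w, hne, hcard⟩ := small_star' (F := G) (B := J) (u := u) (v := v) (n := J.card)
      (by omega) hJG rfl (by omega) ((hM _ hJE).1 (by rw [hJ]; exact hJI))
    set D : Finset α := G.filter fun e => ¬ (u e = w ↔ v e = w) with hD
    have hDstar : (D : Set α) = star ((B ∪ B') \ F) u v w := by
      rw [← hG]
      ext e
      simp only [hD, Pool.Agent.Lib.MP_2c7063_coS.star, Finset.coe_filter, mem_ofPred_eq,
        Finset.mem_coe]
    have hDG : (D : Set α) ⊆ (B ∪ B') \ F := by
      rw [← hG]; exact Finset.coe_subset.2 (Finset.filter_subset _ _)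
    have hcut0 : Cut (M ／ F) ((B ∪ B') \ F) (D : Set α) := by rw [hDstar]; exact hM.cut hEF w
    have hcut : Cut M (B ∪ B') (D : Set α) := cut_of_contract hE hDG hcut0
    refine reduce hB hB' hd hr (hDG.trans sdiff_subset) hcut hne hcard ?_
    intro b b' hbD hb'D P P' hPE hPE' hP hP' hPd hPn
    have hbI : (M ／ F).Indep {b} := by
      have h10 := hcut0 ∅ (empty_subset _) (M ／ F).empty_indep (empty_disjoint _) b
        (Finset.mem_coe.2 hbD)
      simpa using h10
    have hrep := hM.contract hbI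
    rw [Matroid.contract_comm] at hrep
    have hle : (M ／ {b}).eRk F ≤ M.eRk F := by
      rw [Matroid.eRk_le_iff]
      intro I hIF hI
      exact hI.of_contract.encard_le_eRk_of_subset hIF
    refine ih (M ／ {b}) F V _ _ hrep (hle.trans h4) ((mul_le_mul_right hle 2).trans h2) P P' hP hP'
      hPd ?_ hPn
    refine Subset.trans ?_ hPE'
    intro z hz
    refine ⟨hF hz, ?_⟩
    rintro (rfl | rfl)
    · exact (hDG (Finset.mem_coe.2 hbD)).2 hz
    · exact (hDG (Finset.mem_coe.2 hb'D)).2 hz

end Pool.Agent.Lib.MP_2c7063_coT
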