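import Pool.Agent.Lib.MP_2c7063_coT.Near
import Pool.Agent.Lib.MP_2c7063_coS.Final2

/-!
# Truncations whose tight part is nearly graphic or nearly cographic
-/

namespace Pool.Agent.Lib.MP_2c7063_coT

open Set
open scoped Matroid
open Pool.Agent.Lib.MP_2c7063_coS (Good Rep IsCycleMatroid isBase_of tight_sUnion good_dual)

variable {α : Type*}

/-- Contracting a set `F` with `r(F) ≤ 4` and `2 r(F) ≤ |F| + 1` turns `M` into the cycle matroid
of a graph. -/
def NearCycle (M : Matroid α) : Prop :=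
  ∃ F ⊆ M.E, M.eRk F ≤ 4 ∧ 2 * M.eRk F ≤ F.encard + 1 ∧ IsCycleMatroid (M ／ F)

theorem NearCycle.of_isCycleMatroid {M : Matroid α} (h : IsCycleMatroid M) : NearCycle M :=
  ⟨∅, empty_subset _, by simp, by simp, by rw [Matroid.contract_empty]; exact h⟩

theorem NearCycle.of_contractElem {M : Matroid α} {e : α} (he : e ∈ M.E)
    (h : IsCycleMatroid (M ／ {e})) : NearCycle M := by
  refine ⟨{e}, singleton_subset_iff.2 he, (M.eRk_singleton_le e).trans (by decide), ?_, h⟩
  rw [encard_singleton]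
  exact (mul_le_mul_right (M.eRk_singleton_le e) 2).trans (by norm_num)

/-- The traces of two independent sets on a tight set are bases of it. -/
theorem tight_bases {N : Matroid α} {B B' A : Set α} (hB : N.Indep B) (hB' : N.Indep B')
    (hd : Disjoint B B') (hAB : A ⊆ B ∪ B') (hAf : A.Finite) (hA : A.encard = 2 * N.eRk A) :
    ∃ k : ℕ, (N ↾ A).IsBase (A ∩ B) ∧ (N ↾ A).IsBase (A ∩ B') ∧ (A ∩ B).encard = k := by
  have hAPQ : A = (A ∩ B) ∪ (A ∩ B') := by rw [← inter_union_distrib_left, inter_eq_left.2 hAB]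
  have hPQd : Disjoint (A ∩ B) (A ∩ B') := hd.mono inter_subset_right inter_subset_right
  have hPI : N.Indep (A ∩ B) := hB.subset inter_subset_right
  have hQI : N.Indep (A ∩ B') := hB'.subset inter_subset_right
  obtain ⟨k, hk⟩ := ENat.ne_top_iff_exists.1
    (lt_of_le_of_lt (N.eRk_le_encard A) hAf.encard_lt_top).ne
  obtain ⟨p, hp⟩ := ENat.ne_top_iff_exists.1 (hAf.subset inter_subset_left :
    (A ∩ B).Finite).encard_lt_top.ne
  obtain ⟨q, hq⟩ := ENat.ne_top_iff_exists.1 (hAf.subset inter_subset_left :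
    (A ∩ B').Finite).encard_lt_top.ne
  have h1 : (A ∩ B).encard ≤ N.eRk A := hPI.encard_le_eRk_of_subset inter_subset_left
  have h2 : (A ∩ B').encard ≤ N.eRk A := hQI.encard_le_eRk_of_subset inter_subset_left
  have h3 : A.encard = (A ∩ B).encard + (A ∩ B').encard := by
    conv_lhs => rw [hAPQ]
    exact encard_union_eq hPQd
  rw [← hp, ← hk] at h1
  rw [← hq, ← hk] at h2
  rw [hA, ← hp, ← hq, ← hk] at h3
  have j1 : p ≤ k := by exact_mod_cast h1
  have j2 : q ≤ k := by exact_mod_cast h2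
  have j3 : 2 * k = p + q := by exact_mod_cast h3
  have j4 : p = k := by omega
  have j5 : q = k := by omega
  rw [j4] at hp
  rw [j5] at hq
  have hrkA : (N ↾ A).eRank = k := by rw [Matroid.eRank_restrict, hk]
  exact ⟨k, isBase_of (Matroid.restrict_indep_iff.2 ⟨hPI, inter_subset_left⟩) hp.symm hrkA,
    isBase_of (Matroid.restrict_indep_iff.2 ⟨hQI, inter_subset_left⟩) hq.symm hrkA, hp.symm⟩

/-- A pair of bases covering a nearly graphic or nearly cographic matroid. -/
theorem near_good [Nonempty α] {M : Matroid α} {P Q : Set α} {k : ℕ} (hP : M.IsBase P)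
    (hQ : M.IsBase Q) (hd : Disjoint P Q) (hE : M.E = P ∪ Q) (hk : P.encard = k)
    (h : NearCycle M ∨ NearCycle M✶) : ∃ x y, Good M P Q k x y := by
  rcases h with ⟨F, hF, h4, h2, V, u, v, hrep⟩ | ⟨F, hF, h4, h2, V, u, v, hrep⟩
  · exact near k M F V u v hrep h4 h2 P Q hP hQ hd (hF.trans hE.subset) hk
  · have d1 : M✶.IsBase P := by
      rw [Matroid.dual_isBase_iff', hE]
      refine ⟨?_, subset_union_left⟩
      rw [union_sdiff_left, hd.symm.sdiff_eq_left]; exact hQ
    have d2 : M✶.IsBase Q := by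
      rw [Matroid.dual_isBase_iff', hE]
      refine ⟨?_, subset_union_right⟩
      rw [union_sdiff_right, hd.sdiff_eq_left]; exact hP
    obtain ⟨x, y, hg⟩ := near k M✶ F V u v hrep h4 h2 P Q d1 d2 hd (hF.trans hE.subset) hk
    exact ⟨x, y, good_dual hd hE hg⟩

/-- The traces of `B`, `B'` on the tight part are ordered. -/
theorem tight_good [Nonempty α] {N : Matroid α} {B B' A : Set α} (hBN : N.Indep B)
    (hBN' : N.Indep B') (hd : Disjoint B B') (hfin : (B ∪ B').Finite)
    (hA : A = ⋃₀ {A' | A' ⊆ B ∪ B' ∧ A'.encard = 2 * N.eRk A'})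
    (hgood : NearCycle (N ↾ A) ∨ NearCycle (N ↾ A)✶ ∨
      ∃ k x y, Good (N ↾ A) (A ∩ B) (A ∩ B') k x y) :
    ∃ k x y, Good (N ↾ A) (A ∩ B) (A ∩ B') k x y := by
  have hAB : A ⊆ B ∪ B' := by
    rw [hA]; exact sUnion_subset fun A' hA' => hA'.1
  have hAt : A.encard = 2 * N.eRk A := by
    rw [hA]; exact tight_sUnion hBN hBN' hfin
  obtain ⟨k, hP, hQ, hk⟩ := tight_bases hBN hBN' hd hAB (hfin.subset hAB) hAt
  have hE : (N ↾ A).E = (A ∩ B) ∪ (A ∩ B') := by
    rw [Matroid.restrict_ground_eq, ← inter_union_distrib_left, inter_eq_left.2 hAB]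
  have hPQd : Disjoint (A ∩ B) (A ∩ B') := hd.mono inter_subset_right inter_subset_right
  rcases hgood with h | h | h
  · obtain ⟨x, y, hg⟩ := near_good hP hQ hPQd hE hk (Or.inl h)
    exact ⟨k, x, y, hg⟩
  · obtain ⟨x, y, hg⟩ := near_good hP hQ hPQd hE hk (Or.inr h)
    exact ⟨k, x, y, hg⟩
  · exact h

theorem final2' [Nonempty α] {M N : Matroid α} {r : ℕ} {B B' : Set α} (hB : M.IsBase B)
    (hB' : M.IsBase B') (hd : Disjoint B B') (hr : B.encard = r)
    (hN : (∀ J ⊆ B ∪ B', M.Indep J ↔ N.Indep J ∧ J.encard ≤ r) ∨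
      (∀ J ⊆ B ∪ B', (M ↾ (B ∪ B'))✶.Indep J ↔ N.Indep J ∧ J.encard ≤ r)) {A : Set α}
    (hA : A = ⋃₀ {A' | A' ⊆ B ∪ B' ∧ A'.encard = 2 * N.eRk A'})
    (hgood : NearCycle (N ↾ A) ∨ NearCycle (N ↾ A)✶ ∨
      ∃ k x y, Good (N ↾ A) (A ∩ B) (A ∩ B') k x y) :
    ∃ x y, Good M B B' r x y := by
  have hMr : M.eRank = r := by rw [← hB.encard_eq_eRank, hr]
  have hr' : B'.encard = r := by rw [hB'.encard_eq_eRank, hMr]
  have hfin : (B ∪ B').Finite := (finite_of_encard_eq_coe hr).union (finite_of_encard_eq_coe hr')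
  obtain ⟨hBN, hBN'⟩ : N.Indep B ∧ N.Indep B' := by
    rcases hN with h | h
    · exact ⟨((h B subset_union_left).1 hB.indep).1, ((h B' subset_union_right).1 hB'.indep).1⟩
    · have hRr : (M ↾ (B ∪ B')).eRank = r := by
        rw [Matroid.eRank_restrict]
        refine le_antisymm ((M.eRk_le_eRank _).trans hMr.le) ?_
        rw [← hr, ← hB.indep.eRk_eq_encard]
        exact M.eRk_mono subset_union_left
      have hRB : (M ↾ (B ∪ B')).IsBase B :=
        isBase_of (Matroid.restrict_indep_iff.2 ⟨hB.indep, subset_union_left⟩) hr hRr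
      have hRB' : (M ↾ (B ∪ B')).IsBase B' :=
        isBase_of (Matroid.restrict_indep_iff.2 ⟨hB'.indep, subset_union_right⟩) hr' hRr
      have hRE : (M ↾ (B ∪ B')).E = B ∪ B' := Matroid.restrict_ground_eq
      have d1 : (M ↾ (B ∪ B'))✶.IsBase B := by
        rw [Matroid.dual_isBase_iff', hRE]
        refine ⟨?_, subset_union_left⟩
        rw [union_sdiff_left, hd.symm.sdiff_eq_left]; exact hRB'
      have d2 : (M ↾ (B ∪ B'))✶.IsBase B' := by
        rw [Matroid.dual_isBase_iff', hRE]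
        refine ⟨?_, subset_union_right⟩
        rw [union_sdiff_right, hd.sdiff_eq_left]; exact hRB
      exact ⟨((h B subset_union_left).1 d1.indep).1, ((h B' subset_union_right).1 d2.indep).1⟩
  exact Pool.Agent.Lib.MP_2c7063_coS.final2 hB hB' hd hr hN hA
    (Or.inr (Or.inr (tight_good hBN hBN' hd hfin hA hgood)))

end Pool.Agent.Lib.MP_2c7063_coT
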