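import Pool.Agent.Lib.MP_2c7063_coS.Main

/-!
# Prescribed first elements

Contraction of two different elements turns the theorem on a base `B` and an independent set `I`
with one element less into a theorem with two prescribed positions.
-/

namespace Pool.Agent.Lib.MP_2c7063_coT

open Set
open scoped Matroid

variable {α : Type*}

theorem eRk_contractElem {M : Matroid α} {e : α} (he : M.Indep {e}) {X : Set α} (hX : X ⊆ M.E)
    (heX : e ∉ X) : (M ／ {e}).eRk X + 1 = M.eRk (insert e X) := by
  have hX' : X ⊆ (M ／ {e}).E := by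
    rw [Matroid.contract_ground]
    exact subset_sdiff_singleton hX heX
  obtain ⟨J, hJ⟩ := (M ／ {e}).exists_isBasis X hX'
  have h1 := he.union_isBasis_union_of_contract_isBasis hJ
  have heJ : e ∉ J := fun h => heX (hJ.subset h)
  rw [hJ.eRk_eq_encard, ← union_singleton, h1.eRk_eq_encard, union_singleton,
    encard_insert_of_notMem heJ]

/-- The density condition for the pair `M ／ {e}`, `M ／ {f}`. -/
theorem dens_contract {M : Matroid α} {D : Set α} (hDf : D.Finite) (hDE : D ⊆ M.E)
    (hdens : ∀ A ⊆ D, A.Nonempty → A.encard < M.eRk A + M.eRk A) {e f : α} (he : M.Indep {e})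
    (hf : M.Indep {f}) (hef : e ≠ f) (heD : e ∈ D) (hfD : f ∈ D) {X : Set α} (hX : X ⊆ D)
    (heX : e ∉ X) (hfX : f ∉ X) (hne : X.Nonempty) :
    X.encard < (M ／ {e}).eRk X + (M ／ {f}).eRk X := by
  have hXE : X ⊆ M.E := hX.trans hDE
  have h1 := eRk_contractElem he hXE heX
  have h2 := eRk_contractElem hf hXE hfX
  have hfin : ∀ Y : Set α, Y ⊆ D → ∃ n : ℕ, M.eRk Y = n := by
    intro Y hY
    have h3 : M.eRk Y ≠ ⊤ := ((M.eRk_le_encard Y).trans_lt (hDf.subset hY).encard_lt_top).ne
    obtain ⟨n, hn⟩ := ENat.ne_top_iff_exists.1 h3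
    exact ⟨n, hn.symm⟩
  have heXD : insert e X ⊆ D := insert_subset heD hX
  have hfXD : insert f X ⊆ D := insert_subset hfD hX
  have hefXD : insert e (insert f X) ⊆ D := insert_subset heD hfXD
  obtain ⟨a, ha⟩ := hfin X hX
  obtain ⟨b, hb⟩ := hfin _ heXD
  obtain ⟨c, hc⟩ := hfin _ hfXD
  obtain ⟨d, hd⟩ := hfin _ hefXD
  obtain ⟨n, hn⟩ := ENat.ne_top_iff_exists.1 (hDf.subset hX).encard_lt_top.ne
  have e1 : (insert e X).encard = (n + 1 : ℕ) := by
    rw [encard_insert_of_notMem heX, ← hn]; rfl
  have e2 : (insert f X).encard = (n + 1 : ℕ) := by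
    rw [encard_insert_of_notMem hfX, ← hn]; rfl
  have e3 : (insert e (insert f X)).encard = (n + 2 : ℕ) := by
    rw [encard_insert_of_notMem, e2]
    · rfl
    · rintro (h | h)
      · exact hef h
      · exact heX h
  have i0 := hdens X hX hne
  have i1 := hdens _ heXD (insert_nonempty _ _)
  have i2 := hdens _ hfXD (insert_nonempty _ _)
  have i3 := hdens _ hefXD (insert_nonempty _ _)
  have i4 : M.eRk X + M.eRk (insert e (insert f X)) ≤ M.eRk (insert e X) + M.eRk (insert f X) := by
    have h4 := M.eRk_inter_add_eRk_union_le (insert e X) (insert f X)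
    refine le_trans (add_le_add (M.eRk_mono ?_) (M.eRk_mono ?_)) h4
    · exact subset_inter (subset_insert _ _) (subset_insert _ _)
    · rintro z (rfl | rfl | hz)
      · exact Or.inl (Or.inl rfl)
      · exact Or.inr (Or.inl rfl)
      · exact Or.inl (Or.inr hz)
  have i5 : M.eRk (insert e X) ≤ M.eRk X + 1 := M.eRk_insert_le_add_one e X
  have i6 : M.eRk (insert f X) ≤ M.eRk X + 1 := M.eRk_insert_le_add_one f X
  have i7 : M.eRk X ≤ M.eRk (insert e X) := M.eRk_mono (subset_insert _ _)
  have i8 : M.eRk X ≤ M.eRk (insert f X) := M.eRk_mono (subset_insert _ _)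
  rw [← hn, ha] at i0
  rw [e1, hb] at i1
  rw [e2, hc] at i2
  rw [e3, hd] at i3
  rw [ha, hb, hc, hd] at i4
  rw [ha, hb] at i5 i7
  rw [ha, hc] at i6 i8
  rw [hb] at h1
  rw [hc] at h2
  obtain ⟨p, hp⟩ : ∃ p : ℕ, (M ／ {e}).eRk X = p := by
    have h3 : (M ／ {e}).eRk X ≠ ⊤ := fun h => by
      rw [h] at h1; exact absurd h1 (by simp)
    obtain ⟨n, hn⟩ := ENat.ne_top_iff_exists.1 h3
    exact ⟨n, hn.symm⟩
  obtain ⟨q, hq⟩ : ∃ q : ℕ, (M ／ {f}).eRk X = q := by
    have h3 : (M ／ {f}).eRk X ≠ ⊤ := fun h => by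
      rw [h] at h2; exact absurd h2 (by simp)
    obtain ⟨n, hn⟩ := ENat.ne_top_iff_exists.1 h3
    exact ⟨n, hn.symm⟩
  rw [hp] at h1 ⊢
  rw [hq] at h2 ⊢
  rw [← hn]
  have j0 : n < a + a := by exact_mod_cast i0
  have j1 : n + 1 < b + b := by exact_mod_cast i1
  have j2 : n + 1 < c + c := by exact_mod_cast i2
  have j3 : n + 2 < d + d := by exact_mod_cast i3
  have j4 : a + d ≤ b + c := by exact_mod_cast i4
  have j5 : b ≤ a + 1 := by exact_mod_cast i5
  have j6 : c ≤ a + 1 := by exact_mod_cast i6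
  have j7 : a ≤ b := by exact_mod_cast i7
  have j8 : a ≤ c := by exact_mod_cast i8
  have j9 : p + 1 = b := by exact_mod_cast h1
  have j10 : q + 1 = c := by exact_mod_cast h2
  have : n < p + q := by omega
  exact_mod_cast this

theorem injOn_of_image {x : ℕ → α} {B : Set α} {r : ℕ} (hB : B.encard = r)
    (hx : x '' Iio r = B) : InjOn x (Iio r) := by
  refine (finite_Iio r).injOn_of_encard_image_eq ?_
  rw [hx, hB, encard_eq_coe_toFinset_card]
  simp

theorem image_succ (x : ℕ → α) (i : ℕ) :
    x '' Iio (i + 1) = insert (x 0) ((fun k => x (k + 1)) '' Iio i) := by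
  ext z
  constructor
  · rintro ⟨k, hk, rfl⟩
    rcases k with _ | k
    · exact Or.inl rfl
    · exact Or.inr ⟨k, by simp only [mem_Iio] at hk ⊢; omega, rfl⟩
  · rintro (rfl | ⟨k, hk, rfl⟩)
    · exact ⟨0, by simp, rfl⟩
    · exact ⟨k + 1, by simp only [mem_Iio] at hk ⊢; omega, rfl⟩

/-- The first and the last element of the base are prescribed. -/
theorem first_last {M : Matroid α} {B I : Set α} {r : ℕ} (hB : M.IsBase B)
    (hd : Disjoint B I) (hr : B.encard = r) (hIr : I.encard + 1 = r)
    (hdens : ∀ A ⊆ B ∪ I, A.Nonempty → A.encard < M.eRk A + M.eRk A) {s s' : α} (hs : s ∈ B)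
    (hs' : s' ∈ B) (hne : s ≠ s') (h1 : M.IsBase (insert s I)) (h2 : M.IsBase (insert s' I)) :
    ∃ x y : ℕ → α, InjOn x (Iio r) ∧ x '' Iio r = B ∧ InjOn y (Iio (r - 1)) ∧
      y '' Iio (r - 1) = I ∧ x 0 = s ∧ x (r - 1) = s' ∧
      ∀ i < r, M.IsBase ((B \ x '' Iio i) ∪ y '' Iio i) ∧
        M.IsBase ((I \ y '' Iio i) ∪ x '' Iio (i + 1)) := by
  have hIf : I.Finite := by
    by_contra h
    rw [encard_eq_top h] at hIr
    exact absurd hIr (by simp)
  have hBf : B.Finite := finite_of_encard_eq_coe hr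
  have hsI : s ∉ I := disjoint_left.1 hd hs
  have hsI' : s' ∉ I := disjoint_left.1 hd hs'
  have hs1 : M.Indep {s} := hB.indep.subset (singleton_subset_iff.2 hs)
  have hs1' : M.Indep {s'} := hB.indep.subset (singleton_subset_iff.2 hs')
  have hBc : (B \ {s, s'}).encard + 2 = r := by
    rw [← hr, ← encard_sdiff_add_encard_of_subset (show {s, s'} ⊆ B from by
      rintro z (rfl | rfl)
      · exact hs
      · exact hs'), encard_pair hne]
  obtain ⟨n, hm⟩ := ENat.ne_top_iff_exists.1 (hBf.subset (sdiff_subset (s := B)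
    (t := {s, s'}))).encard_lt_top.ne
  obtain ⟨l, hl⟩ := ENat.ne_top_iff_exists.1 hIf.encard_lt_top.ne
  rw [← hm] at hBc
  rw [← hl] at hIr
  have hr1 : r = n + 2 := by exact_mod_cast hBc.symm
  have hl1 : l + 1 = r := by exact_mod_cast hIr
  subst hr1
  obtain rfl : l = n + 1 := by omega
  have hBn : (B \ {s, s'}).encard + 1 = ((n + 1 : ℕ) : ℕ∞) := by rw [← hm]; rfl
  have hIn : I.encard = ((n + 1 : ℕ) : ℕ∞) := hl.symm
  have b1 : (M ／ {s}).IsBase I :=
    hs1.contract_isBase_iff.2 ⟨by rw [union_singleton]; exact h1, disjoint_singleton_right.2 hsI⟩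
  have b2 : (M ／ {s'}).IsBase I :=
    hs1'.contract_isBase_iff.2 ⟨by rw [union_singleton]; exact h2, disjoint_singleton_right.2 hsI'⟩
  have c1 : (M ／ {s}).Indep (B \ {s, s'}) := by
    refine hs1.contract_indep_iff.2 ⟨?_, hB.indep.subset ?_⟩
    · rw [disjoint_singleton_right]; rintro ⟨_, h⟩; exact h (Or.inl rfl)
    · rintro z (hz | rfl)
      · exact hz.1
      · exact hs
  have c2 : (M ／ {s'}).Indep (B \ {s, s'}) := by
    refine hs1'.contract_indep_iff.2 ⟨?_, hB.indep.subset ?_⟩
    · rw [disjoint_singleton_right]; rintro ⟨_, h⟩; exact h (Or.inr rfl)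
    · rintro z (hz | rfl)
      · exact hz.1
      · exact hs'
  have hIE : I ⊆ M.E := (subset_insert _ _).trans h1.subset_ground
  have hBE : B ⊆ M.E := hB.subset_ground
  obtain ⟨x', y', hx1, hx2, hy1, hy2, hW⟩ := MP_2c7063_coS.sufficient b1 b2 c1 c2
    (hd.symm.mono_right sdiff_subset) hIn hBn (by
      intro A hA hAne
      have hs2 : s ∉ A := fun h => by
        rcases hA h with h | h
        · exact hsI h
        · exact h.2 (Or.inl rfl)
      have hs2' : s' ∉ A := fun h => by
        rcases hA h with h | h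
        · exact hsI' h
        · exact h.2 (Or.inr rfl)
      refine dens_contract (hBf.union hIf) (union_subset hBE hIE) hdens hs1 hs1' hne
        (Or.inl hs) (Or.inl hs') ?_ hs2 hs2' hAne
      intro z hz
      rcases hA hz with h | h
      · exact Or.inr h
      · exact Or.inl h.1)
  have hy2' : y' '' Iio n = B \ {s, s'} := by simpa using hy2
  set x : ℕ → α := fun k => if k = 0 then s else if k = n + 1 then s' else y' (k - 1) with hx
  have himg : ∀ i ≤ n, x '' Iio (i + 1) = insert s (y' '' Iio i) := by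
    intro i hi
    rw [image_succ]
    congr 1
    refine image_congr fun k hk => ?_
    have hk : k < i := hk
    simp only [hx, Nat.add_eq_zero_iff, one_ne_zero, and_false, if_false, Nat.add_sub_cancel]
    rw [if_neg (by omega)]
  have himg2 : x '' Iio (n + 2) = B := by
    have h3 : Iio (n + 2) = insert (n + 1) (Iio (n + 1)) := by
      ext k; simp only [mem_Iio, mem_insert_iff]; omega
    rw [h3, image_insert_eq, himg n le_rfl, hy2']
    have h4 : x (n + 1) = s' := by simp [hx]
    rw [h4]
    ext z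
    constructor
    · rintro (rfl | rfl | hz)
      · exact hs'
      · exact hs
      · exact hz.1
    · intro hz
      by_cases hzs : z = s
      · exact Or.inr (Or.inl hzs)
      · by_cases hzs' : z = s'
        · exact Or.inl hzs'
        · refine Or.inr (Or.inr ⟨hz, ?_⟩)
          rintro (h | h)
          · exact hzs h
          · exact hzs' h
  have e1 : n + 2 - 1 = n + 1 := rfl
  refine ⟨x, x', injOn_of_image hr himg2, himg2, by rw [e1]; exact hx1, by rw [e1]; exact hx2,
    by simp [hx], by rw [e1]; simp [hx], fun i hi => ⟨?_, ?_⟩⟩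
  · rcases i with _ | j
    · simpa using hB
    · have h3 := (hW j (by omega)).2
      obtain ⟨h4, -⟩ := hs1'.contract_isBase_iff.1 h3
      rw [himg j (by omega)]
      refine Eq.subst (motive := fun Z => M.IsBase Z) ?_ h4
      have hys : s' ∉ y' '' Iio j := by
        rintro ⟨k, hk, hk'⟩
        have h5 : y' k ∈ B \ {s, s'} := hy2' ▸ ⟨k, by simp only [mem_Iio] at hk ⊢; omega, rfl⟩
        rw [hk'] at h5
        exact h5.2 (Or.inr rfl)
      ext z
      constructor
      · rintro ((⟨hz1, hz2⟩ | hz) | rfl)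
        · refine Or.inl ⟨hz1.1, ?_⟩
          rintro (rfl | h)
          · exact hz1.2 (Or.inl rfl)
          · exact hz2 h
        · exact Or.inr hz
        · refine Or.inl ⟨hs', ?_⟩
          rintro (h | h)
          · exact hne h.symm
          · exact hys h
      · rintro (⟨hz1, hz2⟩ | hz)
        · by_cases hzs' : z = s'
          · exact Or.inr hzs'
          · refine Or.inl (Or.inl ⟨⟨hz1, ?_⟩, fun h => hz2 (Or.inr h)⟩)
            rintro (h | h)
            · exact hz2 (Or.inl h)
            · exact hzs' h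
        · exact Or.inl (Or.inr hz)
  · by_cases hi' : i = n + 1
    · subst hi'
      rw [himg2, hx2, sdiff_self, empty_union]
      exact hB
    · have h3 := (hW i (by omega)).1
      obtain ⟨h4, -⟩ := hs1.contract_isBase_iff.1 h3
      rw [himg i (by omega)]
      refine Eq.subst (motive := fun Z => M.IsBase Z) ?_ h4
      rw [union_assoc, union_singleton]

/-- The first elements of both sequences are prescribed. -/
theorem first_first {M : Matroid α} {B I : Set α} {r : ℕ} (hB : M.IsBase B)
    (hd : Disjoint B I) (hr : B.encard = r) (hIr : I.encard + 1 = r)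
    (hdens : ∀ A ⊆ B ∪ I, A.Nonempty → A.encard < M.eRk A + M.eRk A) {s t : α} (hs : s ∈ B)
    (ht : t ∈ I) (h1 : M.IsBase (insert s I)) (h2 : M.IsBase (insert t (B \ {s}))) :
    ∃ x y : ℕ → α, InjOn x (Iio r) ∧ x '' Iio r = B ∧ InjOn y (Iio (r - 1)) ∧
      y '' Iio (r - 1) = I ∧ x 0 = s ∧ y 0 = t ∧
      ∀ i < r, M.IsBase ((B \ x '' Iio i) ∪ y '' Iio i) ∧
        M.IsBase ((I \ y '' Iio i) ∪ x '' Iio (i + 1)) := by
  have hIf : I.Finite := by
    by_contra h
    rw [encard_eq_top h] at hIr
    exact absurd hIr (by simp)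
  have hBf : B.Finite := finite_of_encard_eq_coe hr
  have hsI : s ∉ I := disjoint_left.1 hd hs
  have htB : t ∉ B := disjoint_right.1 hd ht
  have hst : t ≠ s := fun h => hsI (h ▸ ht)
  have hs1 : M.Indep {s} := hB.indep.subset (singleton_subset_iff.2 hs)
  have ht1 : M.Indep {t} := h1.indep.subset (singleton_subset_iff.2 (Or.inr ht))
  have hIc : (I \ {t}).encard + 1 = I.encard := encard_sdiff_singleton_add_one ht
  have hBc : (B \ {s}).encard + 1 = B.encard := encard_sdiff_singleton_add_one hs
  obtain ⟨m, hm⟩ := ENat.ne_top_iff_exists.1 (hIf.subset (sdiff_subset (s := I)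
      (t := {t}))).encard_lt_top.ne
  obtain ⟨l, hl⟩ := ENat.ne_top_iff_exists.1 (hBf.subset (sdiff_subset (s := B)
      (t := {s}))).encard_lt_top.ne
  rw [← hIc, ← hm] at hIr
  rw [← hl, hr] at hBc
  have hr1 : r = m + 2 := by exact_mod_cast hIr.symm
  have hl1 : l + 1 = r := by exact_mod_cast hBc
  subst hr1
  obtain rfl : l = m + 1 := by omega
  have b1 : (M ／ {t}).IsBase (B \ {s}) :=
    ht1.contract_isBase_iff.2 ⟨by rw [union_singleton]; exact h2,
      disjoint_singleton_right.2 fun h => htB h.1⟩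
  have b2 : (M ／ {s}).IsBase (B \ {s}) :=
    hs1.contract_isBase_iff.2 ⟨by
      rw [sdiff_union_of_subset (singleton_subset_iff.2 hs)]; exact hB,
      disjoint_singleton_right.2 fun h => h.2 rfl⟩
  have c1 : (M ／ {t}).Indep (I \ {t}) := by
    refine ht1.contract_indep_iff.2 ⟨?_, h1.indep.subset ?_⟩
    · rw [disjoint_singleton_right]; exact fun h => h.2 rfl
    · rintro z (hz | rfl)
      · exact Or.inr hz.1
      · exact Or.inr ht
  have c2 : (M ／ {s}).Indep (I \ {t}) := by
    refine hs1.contract_indep_iff.2 ⟨?_, h1.indep.subset ?_⟩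
    · rw [disjoint_singleton_right]; exact fun h => hsI h.1
    · rintro z (hz | rfl)
      · exact Or.inr hz.1
      · exact Or.inl rfl
  have hIE : I ⊆ M.E := (subset_insert _ _).trans h1.subset_ground
  have hBE : B ⊆ M.E := hB.subset_ground
  obtain ⟨x', y', hx1, hx2, hy1, hy2, hW⟩ := MP_2c7063_coS.sufficient b1 b2 c1 c2
    (hd.mono sdiff_subset sdiff_subset) hl.symm (by rw [← hm]; rfl) (by
      intro A hA hAne
      have ht2 : t ∉ A := fun h => by
        rcases hA h with h | h
        · exact htB h.1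
        · exact h.2 rfl
      have hs2 : s ∉ A := fun h => by
        rcases hA h with h | h
        · exact h.2 rfl
        · exact hsI h.1
      refine dens_contract (hBf.union hIf) (union_subset hBE hIE) hdens ht1 hs1 hst
        (Or.inr ht) (Or.inl hs) ?_ ht2 hs2 hAne
      intro z hz
      rcases hA hz with h | h
      · exact Or.inl h.1
      · exact Or.inr h.1)
  have hy2' : y' '' Iio m = I \ {t} := by simpa using hy2
  set x : ℕ → α := fun k => if k = 0 then s else x' (k - 1) with hx
  set y : ℕ → α := fun k => if k = 0 then t else y' (k - 1) with hy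
  have himg : ∀ i, x '' Iio (i + 1) = insert s (x' '' Iio i) := by
    intro i
    rw [image_succ]
    simp [hx]
  have himg' : ∀ i, y '' Iio (i + 1) = insert t (y' '' Iio i) := by
    intro i
    rw [image_succ]
    simp [hy]
  have himg2 : x '' Iio (m + 2) = B := by
    rw [himg, hx2, insert_sdiff_singleton, insert_eq_of_mem hs]
  have himg2' : y '' Iio (m + 1) = I := by
    rw [himg', hy2', insert_sdiff_singleton, insert_eq_of_mem ht]
  have e1 : m + 2 - 1 = m + 1 := rfl
  have hIn : I.encard = ((m + 1 : ℕ) : ℕ∞) := by rw [← hIc, ← hm]; rfl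
  refine ⟨x, y, injOn_of_image hr himg2, himg2, by rw [e1]; exact injOn_of_image hIn himg2',
    by rw [e1]; exact himg2', by simp [hx], by simp [hy], fun i hi => ?_⟩
  rcases i with _ | j
  · refine ⟨by simpa using hB, ?_⟩
    rw [himg]
    simpa using h1
  · have hxj : s ∉ x' '' Iio j := by
      rintro ⟨k, hk, hk'⟩
      have h5 : x' k ∈ B \ {s} := hx2 ▸ ⟨k, by simp only [mem_Iio] at hk ⊢; omega, rfl⟩
      rw [hk'] at h5
      exact h5.2 rfl
    have h3 := hW j (by omega)
    obtain ⟨h4, -⟩ := ht1.contract_isBase_iff.1 h3.1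
    obtain ⟨h5, -⟩ := hs1.contract_isBase_iff.1 h3.2
    rw [himg, himg, himg']
    constructor
    · refine Eq.subst (motive := fun Z => M.IsBase Z) ?_ h4
      rw [union_assoc, union_singleton, sdiff_sdiff, singleton_union]
    · refine Eq.subst (motive := fun Z => M.IsBase Z) ?_ h5
      rw [union_assoc, union_singleton, sdiff_sdiff, singleton_union]

end Pool.Agent.Lib.MP_2c7063_coT
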