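import Pool.Agent.Lib.MP_2c7063_coS.Final
import Pool.Agent.Lib.MP_2c7063_coD.Main
import Pool.Agent.Lib.MP_2c7063_co.Main

/-!
# Good cyclic orderings in rank at most four
-/

namespace Pool.Agent.Lib.MP_2c7063_coT

open Set
open scoped Matroid
open Pool.Agent.Lib.MP_2c7063_coS (Good)

variable {α : Type*}

/-- A serial exchange of length `r - 1` gives a good ordering. -/
theorem good_of_exchange {M : Matroid α} {B B' : Set α} (hB : M.IsBase B) (hB' : M.IsBase B')
    (hd : Disjoint B B') {r : ℕ} (hr : B.encard = r) {k : ℕ} (hk : r ≤ k + 1) (a b : ℕ → α)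
    (ha : InjOn a (Iio k)) (hb : InjOn b (Iio k)) (haB : a '' Iio k ⊆ B) (hbB : b '' Iio k ⊆ B')
    (hab : ∀ i ≤ k, M.IsBase ((B \ a '' Iio i) ∪ b '' Iio i) ∧
      M.IsBase ((B' \ b '' Iio i) ∪ a '' Iio i)) : ∃ x y, Good M B B' r x y := by
  obtain ⟨x, y, hx, hy, hxB, hyB, hxy, hW, -⟩ :=
    Pool.Agent.Lib.MP_2c7063_coD.main hB hB' hd hr k a b ha hb haB hbB hab
  refine ⟨x, y, hx, hxB, hy, hyB, fun i hi => ⟨(hW i hi).1, ?_⟩⟩
  by_cases hik : i ≤ k
  · have e1 : x '' Iio i = a '' Iio i := image_congr fun j hj => (hxy j (lt_of_lt_of_le hj hik)).1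
    have e2 : y '' Iio i = b '' Iio i := image_congr fun j hj => (hxy j (lt_of_lt_of_le hj hik)).2
    rw [e1, e2]
    exact (hab i hik).2
  · have : i = r := by omega
    rw [this, hxB, hyB, sdiff_self, empty_union]
    exact hB

theorem small_rank [Nonempty α] {M : Matroid α} {B B' : Set α} (hB : M.IsBase B)
    (hB' : M.IsBase B') (hd : Disjoint B B') {r : ℕ} (hr : B.encard = r) (h4 : r ≤ 4) :
    ∃ x y, Good M B B' r x y := by
  rcases Nat.lt_or_ge r 2 with h | h
  · refine good_of_exchange hB hB' hd hr (k := 0) (by omega) (fun _ => Classical.arbitrary α)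
      (fun _ => Classical.arbitrary α) ?_ ?_ ?_ ?_ ?_
    · intro i hi; exact absurd hi (Nat.not_lt_zero i)
    · intro i hi; exact absurd hi (Nat.not_lt_zero i)
    · rintro _ ⟨i, hi, -⟩; exact absurd hi (Nat.not_lt_zero i)
    · rintro _ ⟨i, hi, -⟩; exact absurd hi (Nat.not_lt_zero i)
    · intro i hi
      have : i = 0 := by omega
      subst this
      simpa using ⟨hB, hB'⟩
  rcases Nat.lt_or_ge r 3 with h' | h'
  · -- rank two
    obtain ⟨e, he⟩ : B.Nonempty := by
      rw [← one_le_encard_iff_nonempty, hr]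
      exact_mod_cast (by omega : 1 ≤ r)
    obtain ⟨f, hf, hfB, k1, k2⟩ := Pool.Agent.Lib.MP_2c7063_co.symm_exchange hB hB' he
      (disjoint_left.1 hd he)
    have e1 : (fun _ : ℕ => e) '' Iio 1 = {e} := by
      ext z; constructor
      · rintro ⟨_, -, rfl⟩; rfl
      · rintro rfl; exact ⟨0, by simp, rfl⟩
    have e2 : (fun _ : ℕ => f) '' Iio 1 = {f} := by
      ext z; constructor
      · rintro ⟨_, -, rfl⟩; rfl
      · rintro rfl; exact ⟨0, by simp, rfl⟩
    refine good_of_exchange hB hB' hd hr (k := 1) (by omega) (fun _ => e) (fun _ => f) ?_ ?_ ?_ ?_ ?_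
    · intro i hi j hj _
      simp only [mem_Iio] at hi hj
      omega
    · intro i hi j hj _
      simp only [mem_Iio] at hi hj
      omega
    · rw [e1]; exact singleton_subset_iff.2 he
    · rw [e2]; exact singleton_subset_iff.2 hf
    · intro i hi
      rcases Nat.eq_zero_or_pos i with h0 | h0
      · subst h0
        simpa using ⟨hB, hB'⟩
      · have : i = 1 := by omega
        subst this
        rw [e1, e2, union_singleton, union_singleton]
        exact ⟨k1, k2⟩
  · -- rank three and four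
    obtain ⟨A, hA, hA3⟩ : ∃ A ⊆ B, A.ncard = 3 := by
      have hfin : B.Finite := finite_of_encard_eq_coe hr
      have : 3 ≤ B.ncard := by
        have h1 := hfin.cast_ncard_eq
        rw [hr] at h1
        have h2 : B.ncard = r := by exact_mod_cast h1
        omega
      exact Set.exists_subset_card_eq this
    obtain ⟨a, b, ha, hb, haA, hbB, hW⟩ := Pool.Agent.Lib.MP_2c7063_co.three hB hB' hd hA hA3
    set a' : ℕ → α := fun i => if h : i < 3 then a ⟨i, h⟩ else a 0 with ha'
    set b' : ℕ → α := fun i => if h : i < 3 then b ⟨i, h⟩ else b 0 with hb'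
    have ea : ∀ i : ℕ, i ≤ 3 → a' '' Iio i = a '' {j | (j : ℕ) < i} := by
      intro i hi
      ext z
      constructor
      · rintro ⟨j, hj, rfl⟩
        have hj' : j < i := hj
        have h3 : j < 3 := by omega
        exact ⟨⟨j, h3⟩, hj', by simp only [ha', dif_pos h3]⟩
      · rintro ⟨j, hj, rfl⟩
        exact ⟨j, hj, by simp only [ha', dif_pos j.2]⟩
    have eb : ∀ i : ℕ, i ≤ 3 → b' '' Iio i = b '' {j | (j : ℕ) < i} := by
      intro i hi
      ext z
      constructor
      · rintro ⟨j, hj, rfl⟩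
        have hj' : j < i := hj
        have h3 : j < 3 := by omega
        exact ⟨⟨j, h3⟩, hj', by simp only [hb', dif_pos h3]⟩
      · rintro ⟨j, hj, rfl⟩
        exact ⟨j, hj, by simp only [hb', dif_pos j.2]⟩
    refine good_of_exchange hB hB' hd hr (k := 3) (by omega) a' b' ?_ ?_ ?_ ?_ ?_
    · intro i hi j hj hij
      simp only [mem_Iio] at hi hj
      simp only [ha', dif_pos hi, dif_pos hj] at hij
      exact congrArg Fin.val (ha hij)
    · intro i hi j hj hij
      simp only [mem_Iio] at hi hj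
      simp only [hb', dif_pos hi, dif_pos hj] at hij
      exact congrArg Fin.val (hb hij)
    · rw [ea 3 le_rfl]
      rintro _ ⟨j, -, rfl⟩
      exact hA (haA ▸ mem_range_self j)
    · rw [eb 3 le_rfl]
      rintro _ ⟨j, -, rfl⟩
      exact hbB (mem_range_self j)
    · intro i hi
      rw [ea i hi, eb i hi]
      exact hW i hi

end Pool.Agent.Lib.MP_2c7063_coT
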