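import Pool.Agent.Lib.MP_2c7063_coT.Presc
import Pool.Agent.Lib.MP_2c7063_coT.Lift

/-!
# Orders of two arbitrary disjoint bases

`S` meets every nonempty subset `A` of the union of the two disjoint bases with `|A| = 2 r(A)`.
Then the bases have orders such that all windows of the first half are bases and every window of
`r + 1` elements of the second half becomes a base after the deletion of an element of `S`.
-/

namespace Pool.Agent.Lib.MP_2c7063_coT

open Set
open scoped Matroid

variable {α : Type*}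

theorem encard_le_two {M : Matroid α} {B B' : Set α} (hB : M.Indep B) (hB' : M.Indep B')
    {A : Set α} (hA : A ⊆ B ∪ B') : A.encard ≤ M.eRk A + M.eRk A := by
  have h1 : (A ∩ B).encard ≤ M.eRk A :=
    (hB.subset inter_subset_right).encard_le_eRk_of_subset inter_subset_left
  have h2 : (A ∩ B').encard ≤ M.eRk A :=
    (hB'.subset inter_subset_right).encard_le_eRk_of_subset inter_subset_left
  calc A.encard = ((A ∩ B) ∪ (A ∩ B')).encard := by
        rw [← inter_union_distrib_left, inter_eq_left.2 hA]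
    _ ≤ (A ∩ B).encard + (A ∩ B').encard := encard_union_le _ _
    _ ≤ _ := add_le_add h1 h2

/-- The density condition for the pair `lift ／ {t}`, `M`. -/
theorem dens_lift {M : Matroid α} {D S : Set α} (hDf : D.Finite)
    (hdens : ∀ A ⊆ D, A.encard ≤ M.eRk A + M.eRk A)
    (hS : ∀ A ⊆ D, A.Nonempty → A.encard = 2 * M.eRk A → (A ∩ S).Nonempty) {t : α} (ht : t ∈ D)
    (ht1 : (lift M D S hDf).Indep {t}) {X : Set α} (hX : X ⊆ D) (htX : t ∉ X) (hne : X.Nonempty) :
    X.encard < (lift M D S hDf ／ {t}).eRk X + M.eRk X := by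
  have h1 := eRk_contractElem ht1 (show X ⊆ (lift M D S hDf).E from hX) htX
  have hfin : ∀ Y : Set α, Y ⊆ D → ∃ n : ℕ, M.eRk Y = n := by
    intro Y hY
    have h3 : M.eRk Y ≠ ⊤ := ((M.eRk_le_encard Y).trans_lt (hDf.subset hY).encard_lt_top).ne
    obtain ⟨n, hn⟩ := ENat.ne_top_iff_exists.1 h3
    exact ⟨n, hn.symm⟩
  have htXD : insert t X ⊆ D := insert_subset ht hX
  obtain ⟨a, ha⟩ := hfin X hX
  obtain ⟨d, hd⟩ := hfin _ htXD
  obtain ⟨n, hn⟩ := ENat.ne_top_iff_exists.1 (hDf.subset hX).encard_lt_top.ne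
  obtain ⟨l, hl⟩ : ∃ l : ℕ, (lift M D S hDf).eRk (insert t X) = l := by
    have h3 : (lift M D S hDf).eRk (insert t X) ≠ ⊤ :=
      (((lift M D S hDf).eRk_le_encard _).trans_lt (hDf.subset htXD).encard_lt_top).ne
    obtain ⟨n, hn⟩ := ENat.ne_top_iff_exists.1 h3
    exact ⟨n, hn.symm⟩
  obtain ⟨p, hp⟩ : ∃ p : ℕ, (lift M D S hDf ／ {t}).eRk X = p := by
    have h3 : (lift M D S hDf ／ {t}).eRk X ≠ ⊤ := fun h => by
      rw [h, hl] at h1; exact absurd h1 (by simp)
    obtain ⟨n, hn⟩ := ENat.ne_top_iff_exists.1 h3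
    exact ⟨n, hn.symm⟩
  have e1 : (insert t X).encard = (n + 1 : ℕ) := by
    rw [encard_insert_of_notMem htX, ← hn]; rfl
  have i0 := hdens X hX
  have i1 := hdens _ htXD
  have i2 : M.eRk (insert t X) ≤ M.eRk X + 1 := M.eRk_insert_le_add_one t X
  have i3 : M.eRk X ≤ M.eRk (insert t X) := M.eRk_mono (subset_insert _ _)
  have i4 : M.eRk (insert t X) ≤ (lift M D S hDf).eRk (insert t X) := eRk_le_lift htXD
  rw [← hn, ha] at i0
  rw [e1, hd] at i1
  rw [ha, hd] at i2 i3
  rw [hd, hl] at i4
  rw [hp, hl] at h1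
  rw [← hn, hp, ha]
  have j0 : n ≤ a + a := by exact_mod_cast i0
  have j1 : n + 1 ≤ d + d := by exact_mod_cast i1
  have j2 : d ≤ a + 1 := by exact_mod_cast i2
  have j3 : a ≤ d := by exact_mod_cast i3
  have j4 : d ≤ l := by exact_mod_cast i4
  have j5 : p + 1 = l := by exact_mod_cast h1
  have goal : n < p + a := by
    by_cases hda : d = a
    · by_cases hn2 : n + 2 ≤ a + a
      · omega
      · -- `insert t X` is tight
        have htight : (insert t X).encard = 2 * M.eRk (insert t X) := by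
          rw [e1, hd]
          have : n + 1 = 2 * d := by omega
          exact_mod_cast this
        obtain ⟨e, heX, heS⟩ := hS _ htXD (insert_nonempty _ _) htight
        have h4 := eRk_add_one_le_lift (M := M) (S := S) (hE := hDf) htXD heS heX
        have h5 := hdens (insert t X \ {e}) (sdiff_subset.trans htXD)
        have h6 := encard_sdiff_singleton_add_one heX
        obtain ⟨b, hb⟩ := hfin _ (sdiff_subset.trans htXD : insert t X \ {e} ⊆ D)
        rw [hb, hl] at h4
        obtain ⟨m, hm⟩ := ENat.ne_top_iff_exists.1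
          (hDf.subset (sdiff_subset.trans htXD : insert t X \ {e} ⊆ D)).encard_lt_top.ne
        rw [← hm, hb] at h5
        rw [← hm, e1] at h6
        have k1 : b + 1 ≤ l := by exact_mod_cast h4
        have k2 : m ≤ b + b := by exact_mod_cast h5
        have k3 : m + 1 = n + 1 := by exact_mod_cast h6
        omega
    · by_cases hn1 : n + 1 ≤ a + a
      · omega
      · have htight : X.encard = 2 * M.eRk X := by
          rw [← hn, ha]
          have : n = 2 * a := by omega
          exact_mod_cast this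
        obtain ⟨e, heX, heS⟩ := hS _ hX hne htight
        have het : t ≠ e := fun h => htX (h ▸ heX)
        have heX' : e ∈ insert t X := Or.inr heX
        have h4 := eRk_add_one_le_lift (M := M) (S := S) (hE := hDf) htXD heS heX'
        have h5 := hdens (X \ {e}) (sdiff_subset.trans hX)
        have h6 := encard_sdiff_singleton_add_one heX
        obtain ⟨b, hb⟩ := hfin _ (sdiff_subset.trans hX : X \ {e} ⊆ D)
        obtain ⟨c, hc⟩ := hfin _ (sdiff_subset.trans htXD : insert t X \ {e} ⊆ D)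
        rw [hc, hl] at h4
        obtain ⟨m, hm⟩ := ENat.ne_top_iff_exists.1
          (hDf.subset (sdiff_subset.trans hX : X \ {e} ⊆ D)).encard_lt_top.ne
        rw [← hm, hb] at h5
        rw [← hm, ← hn] at h6
        have h7 : M.eRk (X \ {e}) + M.eRk (insert t X) ≤
            M.eRk X + M.eRk (insert t X \ {e}) := by
          have h8 := M.eRk_inter_add_eRk_union_le X (insert t X \ {e})
          refine le_trans (add_le_add (M.eRk_mono ?_) (M.eRk_mono ?_)) h8
          · exact subset_inter sdiff_subset (sdiff_subset_sdiff_left (subset_insert _ _))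
          · rintro z (rfl | hz)
            · exact Or.inr ⟨Or.inl rfl, het⟩
            · exact Or.inl hz
        rw [hb, hd, ha, hc] at h7
        have k1 : c + 1 ≤ l := by exact_mod_cast h4
        have k2 : m ≤ b + b := by exact_mod_cast h5
        have k3 : m + 1 = n := by exact_mod_cast h6
        have k4 : b + d ≤ a + c := by exact_mod_cast h7
        omega
  exact_mod_cast goal

/-- Existence with prescribed first element. -/
theorem uncond_presc {M : Matroid α} {B B' S : Set α} {r : ℕ} (hB : M.IsBase B)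
    (hB' : M.IsBase B') (hd : Disjoint B B') (hr : B.encard = r)
    (hS : ∀ A ⊆ B ∪ B', A.Nonempty → A.encard = 2 * M.eRk A → (A ∩ S).Nonempty) {t : α}
    (ht : t ∈ B') (hex : ∃ e ∈ S, M.IsBase (insert t B \ {e})) :
    ∃ x y : ℕ → α, InjOn x (Iio r) ∧ x '' Iio r = B ∧ InjOn y (Iio r) ∧ y '' Iio r = B' ∧
      y 0 = t ∧ (∀ i ≤ r, M.IsBase ((B' \ y '' Iio i) ∪ x '' Iio i)) ∧
      ∀ i < r, ∃ e ∈ S, M.IsBase (((B \ x '' Iio i) ∪ y '' Iio (i + 1)) \ {e}) := by
  have hr' : B'.encard = r := by rw [hB'.encard_eq_eRank, ← hB.encard_eq_eRank, hr]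
  have hrk : M.eRank = r := by rw [← hB.encard_eq_eRank, hr]
  have hBf : B.Finite := finite_of_encard_eq_coe hr
  have hBf' : B'.Finite := finite_of_encard_eq_coe hr'
  have hDf : (B ∪ B').Finite := hBf.union hBf'
  have htB : t ∉ B := disjoint_right.1 hd ht
  set L := lift M (B ∪ B') S hDf with hL
  have ht1 : L.Indep {t} := lift_indep.2 ⟨singleton_subset_iff.2 (Or.inr ht),
    Or.inl (hB'.indep.subset (singleton_subset_iff.2 ht))⟩
  -- the first window
  have hBt : L.Indep (insert t B) := by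
    obtain ⟨e, heS, he⟩ := hex
    refine lift_indep.2 ⟨insert_subset (Or.inr ht) subset_union_left, ?_⟩
    by_cases het : e ∈ insert t B
    · exact Or.inr ⟨e, heS, het, he.indep⟩
    · rw [sdiff_singleton_eq_self het] at he
      exact Or.inl he.indep
  have hBt' : L.IsBase (insert t B) := by
    refine hBt.isBase_of_eRk_ge (hBf.insert t) ?_
    rw [hBt.eRk_eq_encard, encard_insert_of_notMem htB, hr]
    obtain ⟨K, hK⟩ := L.exists_isBase
    rw [← hK.encard_eq_eRank, ← hrk]
    exact encard_le_of_preInd (lift_indep.1 hK.indep).2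
  have b1 : (L ／ {t}).IsBase B :=
    ht1.contract_isBase_iff.2 ⟨by rw [union_singleton]; exact hBt',
      disjoint_singleton_right.2 htB⟩
  have c1 : (L ／ {t}).Indep (B' \ {t}) := by
    refine ht1.contract_indep_iff.2 ⟨?_, ?_⟩
    · rw [disjoint_singleton_right]; exact fun h => h.2 rfl
    · rw [sdiff_union_of_subset (singleton_subset_iff.2 ht)]
      exact lift_indep.2 ⟨subset_union_right, Or.inl hB'.indep⟩
  have hI : (B' \ {t}).encard + 1 = r := by rw [encard_sdiff_singleton_add_one ht, hr']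
  obtain ⟨x, y', hx1, hx2, hy1, hy2, hW⟩ := MP_2c7063_coS.sufficient b1 hB c1
    (hB'.indep.subset sdiff_subset) (hd.mono_right sdiff_subset) hr hI (by
      intro A hA hAne
      have htA : t ∉ A := fun h => by
        rcases hA h with h | h
        · exact htB h
        · exact h.2 rfl
      exact dens_lift hDf (fun A hA => encard_le_two hB.indep hB'.indep hA) hS (Or.inr ht) ht1
        (hA.trans (union_subset_union_right _ sdiff_subset)) htA hAne)
  set y : ℕ → α := fun k => if k = 0 then t else y' (k - 1) with hy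
  have himg' : ∀ i, y '' Iio (i + 1) = insert t (y' '' Iio i) := by
    intro i
    rw [image_succ]
    simp [hy]
  have hr0 : ∃ m, r = m + 1 := by
    rcases r with _ | m
    · exfalso
      rw [hx2.symm] at hr
      have : (B' \ {t}).encard + 1 = 0 := by rw [hI]; rfl
      simp at this
    · exact ⟨m, rfl⟩
  obtain ⟨m, rfl⟩ := hr0
  have himg2' : y '' Iio (m + 1) = B' := by
    have hy2' : y' '' Iio m = B' \ {t} := by simpa using hy2
    rw [himg', hy2', insert_sdiff_singleton, insert_eq_of_mem ht]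
  refine ⟨x, y, hx1, hx2, injOn_of_image hr' himg2', himg2', by simp [hy], fun i hi => ?_,
    fun i hi => ?_⟩
  · rcases i with _ | j
    · simpa using hB'
    · have h3 := (hW j (by omega)).2
      rw [himg']
      refine Eq.subst (motive := fun Z => M.IsBase Z) ?_ h3
      rw [sdiff_sdiff, singleton_union]
  · have h3 := (hW i hi).1
    obtain ⟨h4, h5⟩ := ht1.contract_isBase_iff.1 h3
    rw [himg']
    have h6 : ((B \ x '' Iio i) ∪ y' '' Iio i) ∪ {t} =
        (B \ x '' Iio i) ∪ insert t (y' '' Iio i) := by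
      rw [union_assoc, union_singleton]
    rw [h6] at h4
    have h7 : ((B \ x '' Iio i) ∪ insert t (y' '' Iio i)).encard = (m + 1 : ℕ) + 1 := by
      rw [h4.encard_eq_eRank, ← hBt'.encard_eq_eRank, encard_insert_of_notMem htB, hr]
    rcases (lift_indep.1 h4.indep).2 with h8 | ⟨e, heS, heW, h8⟩
    · exfalso
      have h9 := h8.encard_le_eRank
      rw [h7, hrk] at h9
      have : m + 1 + 1 ≤ m + 1 := by exact_mod_cast h9
      omega
    · refine ⟨e, heS, MP_2c7063_coS.isBase_of h8 ?_ hrk⟩
      have h9 := encard_sdiff_singleton_add_one heW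
      rw [h7] at h9
      exact WithTop.add_right_cancel (ENat.natCast_ne_top 1) h9

/-- Necessity of the condition on `S`. -/
theorem uncond_necessary {M : Matroid α} {B B' S : Set α} {r : ℕ} (hB : M.IsBase B)
    (hB' : M.IsBase B') (hr : B.encard = r) {x y : ℕ → α}
    (hx : InjOn x (Iio r)) (hxB : x '' Iio r = B)
    (h1 : ∀ i ≤ r, M.IsBase ((B' \ y '' Iio i) ∪ x '' Iio i))
    (h2 : ∀ i < r, ∃ e ∈ S, M.IsBase (((B \ x '' Iio i) ∪ y '' Iio (i + 1)) \ {e}))
    {A : Set α} (hA : A ⊆ B ∪ B') (hne : A.Nonempty) (htight : A.encard = 2 * M.eRk A) :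
    (A ∩ S).Nonempty := by
  by_contra hcon
  have hAS : ∀ a ∈ A, a ∉ S := fun a ha h => hcon ⟨a, ha, h⟩
  have hr' : B'.encard = r := by rw [hB'.encard_eq_eRank, ← hB.encard_eq_eRank, hr]
  have hBf : B.Finite := finite_of_encard_eq_coe hr
  have hBf' : B'.Finite := finite_of_encard_eq_coe hr'
  have hAf : A.Finite := (hBf.union hBf').subset hA
  have hAtop : A.encard ≠ ⊤ := hAf.encard_lt_top.ne
  by_cases hAB : ∃ e ∈ A, e ∈ B
  · obtain ⟨e, heA, heB⟩ := hAB
    rw [← hxB] at heB
    obtain ⟨i, hi, rfl⟩ := heB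
    have hi' : i < r := hi
    have w1 := h1 (i + 1) hi'
    obtain ⟨e, heS, w2⟩ := h2 i hi'
    set W₁ := (B' \ y '' Iio (i + 1)) ∪ x '' Iio (i + 1) with hW1
    set W₂ := ((B \ x '' Iio i) ∪ y '' Iio (i + 1)) \ {e} with hW2
    have g1 : (A ∩ W₁).encard ≤ M.eRk A :=
      (w1.indep.subset inter_subset_right).encard_le_eRk_of_subset inter_subset_left
    have g2 : (A ∩ W₂).encard ≤ M.eRk A :=
      (w2.indep.subset inter_subset_right).encard_le_eRk_of_subset inter_subset_left
    have g3 : (A ∩ W₁) ∪ (A ∩ W₂) = A := by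
      rw [← inter_union_distrib_left]
      refine inter_eq_left.2 fun a ha => ?_
      have hae : a ∉ ({e} : Set α) := fun h => hAS a ha (by
        rw [mem_singleton_iff.1 h]; exact heS)
      rcases hA ha with h | h
      · by_cases h' : a ∈ x '' Iio i
        · refine Or.inl (Or.inr ?_)
          obtain ⟨j, hj, rfl⟩ := h'
          exact ⟨j, by simp only [mem_Iio] at hj ⊢; omega, rfl⟩
        · exact Or.inr ⟨Or.inl ⟨h, h'⟩, hae⟩
      · by_cases h' : a ∈ y '' Iio (i + 1)
        · exact Or.inr ⟨Or.inr h', hae⟩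
        · exact Or.inl (Or.inl ⟨h, h'⟩)
    have g4 : x i ∈ (A ∩ W₁) ∩ (A ∩ W₂) := by
      refine ⟨⟨heA, Or.inr ⟨i, by simp, rfl⟩⟩, heA, Or.inl ⟨?_, ?_⟩, fun h => hAS _ heA (by
        rw [mem_singleton_iff.1 h]; exact heS)⟩
      · rw [← hxB]; exact ⟨i, hi, rfl⟩
      · rintro ⟨j, hj, hji⟩
        have hj' : j < i := hj
        have := hx (show j ∈ Iio r by simp only [mem_Iio]; omega) (show i ∈ Iio r from hi) hji
        omega
    have g5 : 1 ≤ ((A ∩ W₁) ∩ (A ∩ W₂)).encard := one_le_encard_iff_nonempty.2 ⟨_, g4⟩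
    have g6 := encard_union_add_encard_inter (A ∩ W₁) (A ∩ W₂)
    rw [g3] at g6
    have g7 : A.encard < A.encard := by
      calc A.encard < A.encard + 1 := ENat.lt_add_one_iff hAtop |>.2 le_rfl
        _ ≤ A.encard + ((A ∩ W₁) ∩ (A ∩ W₂)).encard := by gcongr
        _ = (A ∩ W₁).encard + (A ∩ W₂).encard := g6
        _ ≤ M.eRk A + M.eRk A := add_le_add g1 g2
        _ = A.encard := by rw [htight, two_mul]
    exact lt_irrefl _ g7
  · push Not at hAB
    have hAI : A ⊆ B' := fun a ha => (hA ha).resolve_left (hAB a ha)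
    have g1 : 1 ≤ A.encard := one_le_encard_iff_nonempty.2 hne
    have g2 : M.eRk A = A.encard := (hB'.indep.subset hAI).eRk_eq_encard
    rw [g2, two_mul] at htight
    have g7 : A.encard < A.encard := by
      calc A.encard < A.encard + 1 := ENat.lt_add_one_iff hAtop |>.2 le_rfl
        _ ≤ A.encard + A.encard := by gcongr
        _ = A.encard := htight.symm
    exact lt_irrefl _ g7

/-- Existence, with all possible first elements. -/
theorem uncond_iff {M : Matroid α} {B B' S : Set α} {r : ℕ} (hr0 : 1 ≤ r) (hB : M.IsBase B)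
    (hB' : M.IsBase B') (hd : Disjoint B B') (hr : B.encard = r) :
    (∃ x y : ℕ → α, InjOn x (Iio r) ∧ x '' Iio r = B ∧ InjOn y (Iio r) ∧ y '' Iio r = B' ∧
      (∀ i ≤ r, M.IsBase ((B' \ y '' Iio i) ∪ x '' Iio i)) ∧
      ∀ i < r, ∃ e ∈ S, M.IsBase (((B \ x '' Iio i) ∪ y '' Iio (i + 1)) \ {e})) ↔
    ∀ A ⊆ B ∪ B', A.Nonempty → A.encard = 2 * M.eRk A → (A ∩ S).Nonempty := by
  constructor
  · rintro ⟨x, y, hx, hxB, -, -, h1, h2⟩ A hA hne htight
    exact uncond_necessary hB hB' hr hx hxB h1 h2 hA hne htight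
  · intro hS
    have hr' : B'.encard = r := by rw [hB'.encard_eq_eRank, ← hB.encard_eq_eRank, hr]
    have hne : B.Nonempty := by
      rw [← one_le_encard_iff_nonempty, hr]
      exact_mod_cast hr0
    have htight : (B ∪ B').encard = 2 * M.eRk (B ∪ B') := by
      have h1 : M.eRk (B ∪ B') = r := by
        refine le_antisymm ?_ ?_
        · rw [← hr, hB.encard_eq_eRank]; exact M.eRk_le_eRank _
        · rw [← hr, ← hB.indep.eRk_eq_encard]; exact M.eRk_mono subset_union_left
      rw [encard_union_eq hd, hr, hr', h1, two_mul]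
    obtain ⟨e, he, heS⟩ := hS _ Subset.rfl (hne.mono subset_union_left) htight
    obtain ⟨t, ht, hex⟩ : ∃ t ∈ B', ∃ e ∈ S, M.IsBase (insert t B \ {e}) := by
      rcases he with he | he
      · have heB' : e ∉ B' := disjoint_left.1 hd he
        obtain ⟨t, ht, hbt⟩ := hB.exchange hB' ⟨he, heB'⟩
        have hte : t ≠ e := fun h => heB' (h ▸ ht.1)
        exact ⟨t, ht.1, e, heS, by rwa [insert_sdiff_comm' hte]⟩
      · exact ⟨e, he, e, heS, by rwa [insert_sdiff_self' (disjoint_right.1 hd he)]⟩
    obtain ⟨x, y, h1, h2, h3, h4, -, h5, h6⟩ := uncond_presc hB hB' hd hr hS ht hex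
    exact ⟨x, y, h1, h2, h3, h4, h5, h6⟩

end Pool.Agent.Lib.MP_2c7063_coT
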